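import Pool.Agent.TH785.DL.Coind

/-!
# Vanishing of derived limits from triviality of cocycles
-/

set_option autoImplicit false

namespace Pool.Agent.TH785.DL

open CategoryTheory CategoryTheory.Limits Opposite

section

variable {J : Type} [SemilatticeInf J] {ι : Type} (S : ι → J)

theorem exact_ap (T : ShortComplex (InvSys J)) (h : T.Exact) (g : J) (y : T.X₂.obj (op g))
    (hy : ap T.g g y = 0) : ∃ x : T.X₁.obj (op g), ap T.f g x = y := by
  have h1 := h.map ((evaluation Jᵒᵖ AddCommGrpCat.{0}).obj (op g))
  rw [ShortComplex.ab_exact_iff] at h1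
  exact h1 y hy

theorem exists_lim (X : InvSys J) (e : ∀ g : J, X.obj (op g))
    (he : ∀ g h (hgh : g ≤ h), res X hgh (e h) = e g) :
    ∃ z : (invLim J).obj X, ∀ g : J, (limit.π X (op g)).hom z = e g := by
  let c : Cone X :=
    { pt := AddCommGrpCat.of ℤ
      π := 
        { app := fun g => AddCommGrpCat.ofHom (zmultiplesHom _ (e g.unop))
          naturality := by
            intro g g' f
            ext k
            have h1 := he g'.unop g.unop f.unop.le
            have h2 : X.map f = X.map (homOfLE f.unop.le).op := rfl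
            simp only [Functor.const_obj_obj, Functor.const_obj_map, Category.id_comp]
            rw [h2]
            show (zmultiplesHom _ (e g'.unop)) k = res X f.unop.le ((zmultiplesHom _ (e g.unop)) k)
            rw [zmultiplesHom_apply, zmultiplesHom_apply, map_zsmul, h1] } }
  refine ⟨(limit.lift X c).hom (1 : ℤ), fun g => ?_⟩
  have h1 : limit.lift X c ≫ limit.π X (op g) = c.π.app (op g) := limit.lift_π c (op g)
  have h2 := congrArg (fun k => k.hom (1 : ℤ)) h1
  refine h2.trans ?_
  show (zmultiplesHom _ (e g)) (1 : ℤ) = e g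
  rw [zmultiplesHom_apply, one_zsmul]

theorem lim_ext (X : InvSys J) (z z' : (invLim J).obj X)
    (h : ∀ g : J, (limit.π X (op g)).hom z = (limit.π X (op g)).hom z') : z = z' := by
  apply Concrete.limit_ext X
  intro g
  exact h g.unop

theorem lim_compat (X : InvSys J) (z : (invLim J).obj X) (g h : J) (hgh : g ≤ h) :
    res X hgh ((limit.π X (op h)).hom z) = (limit.π X (op g)).hom z := by
  have h1 := limit.w X (homOfLE hgh).op
  exact congrArg (fun k => k.hom z) h1

theorem lim_map (X Y : InvSys J) (f : X ⟶ Y) (z : (invLim J).obj X) (g : J) :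
    (limit.π Y (op g)).hom (((invLim J).map f).hom z) = ap f g ((limit.π X (op g)).hom z) := by
  have h1 := limMap_π f (op g)
  exact congrArg (fun k => k.hom z) h1

/-- If every cocycle of degree `n + 1` is a coboundary, then the derived limit of degree `n + 1`
vanishes. -/
theorem isZero_limN (hcof : ∀ g, ∃ s, g ≤ S s) (X : InvSys J) (n : ℕ)
    (hX : Ex S X (topS X) (n + 1)) : IsZero ((limN J (n + 1)).obj X) := by
  obtain ⟨I⟩ := (inferInstance : HasInjectiveResolution X).out
  -- the kernels
  have hker0 : Ex S (I.cocomplex.X 0) (kerS (I.cocomplex.d 0 1)) (n + 1) := by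
    intro φ hφ hm hd
    -- the isomorphism of X with the kernel
    have hι : ∀ g (y : (I.cocomplex.X 0).obj (op g)), ap (I.cocomplex.d 0 1) g y = 0 →
        ∃ x : X.obj (op g), ap (I.ι.f 0) g x = y := fun g y hy =>
      exact_ap _ I.exact₀ g y hy
    have hinj : ∀ g, Function.Injective (ap (I.ι.f 0) g) := by
      intro g
      have h1 : Mono ((I.ι.f 0).app (op g)) := inferInstance
      exact (AddCommGrpCat.mono_iff_injective _).1 h1
    have hz : ∀ g (x : X.obj (op g)), ap (I.cocomplex.d 0 1) g (ap (I.ι.f 0) g x) = 0 := by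
      intro g x
      have h1 := I.ι_f_zero_comp_complex_d
      exact congrArg (fun k => (k.app (op g)).hom x) h1
    classical
    have hc : ∀ t g, ∃ x : X.obj (op g), Rel S t g → ap (I.ι.f 0) g x = φ t g := by
      intro t g
      by_cases h : Rel S t g
      · obtain ⟨x, hx⟩ := hι g _ (hm t g h)
        exact ⟨x, fun _ => hx⟩
      · exact ⟨0, fun h' => absurd h' h⟩
    choose x hx using hc
    obtain ⟨ψ, hψ, -, hψd⟩ := hX x
      (by
        intro t g h hgh hr
        apply hinj g
        have h1 := ap_res (I.ι.f 0) hgh (x t h)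
        refine h1.trans ?_
        rw [hx t h hr, hx t g (hr.mono hgh)]
        exact hφ t g h hgh hr)
      (fun _ _ _ => AddSubgroup.mem_top _)
      (by
        intro t g hr
        apply hinj g
        refine (map_dl (ap (I.ι.f 0) g) (fun u => x u g) t).trans ?_
        refine Eq.trans ?_ (map_zero (ap (I.ι.f 0) g)).symm
        refine Eq.trans ?_ (hd t g hr)
        exact dl_congr fun i => hx _ g (hr.comp _))
    refine ⟨fun t g => ap (I.ι.f 0) g (ψ t g), compat_map S _ hψ, fun t g _ => hz g _, ?_⟩
    intro t g hr
    have h1 := map_dl (ap (I.ι.f 0) g) (fun u => ψ u g) t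
    rw [← hx t g hr, ← hψd t g hr]
    exact h1.symm
  have hac : ∀ m k, Ex S (I.cocomplex.X m) (topS _) k := fun m k =>
    ex_injective S (I.cocomplex.X m) hcof k
  have him : ∀ m g, imS (I.cocomplex.d m (m + 1)) g = kerS (I.cocomplex.d (m + 1) (m + 2)) g := by
    intro m g
    ext y
    constructor
    · rintro ⟨x, rfl⟩
      have h1 := I.complex_d_comp m
      exact congrArg (fun k => (k.app (op g)).hom x) h1
    · intro hy
      exact exact_ap _ (I.exact_succ m) g y hy
  have hkern : ∀ m k, m + k = n + 1 → 1 ≤ k →
      Ex S (I.cocomplex.X m) (kerS (I.cocomplex.d m (m + 1))) k := by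
    intro m
    induction m with
    | zero =>
      intro k hk _
      rw [Nat.zero_add] at hk
      rw [hk]
      exact hker0
    | succ m ih =>
      intro k hk hk1
      have h1 := ih (k + 1) (by omega) (by omega)
      have h2 := Ex.shift S (I.cocomplex.d m (m + 1)) (hac m k) h1
      have h3 : imS (I.cocomplex.d m (m + 1)) = kerS (I.cocomplex.d (m + 1) (m + 2)) :=
        funext fun g => him m g
      rw [h3] at h2
      exact h2
  have hlast := hkern n 1 rfl le_rfl
  unfold limN
  refine IsZero.of_iso ?_ (I.isoRightDerivedObj (invLim J) (n + 1))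
  have hex : (((invLim J).mapHomologicalComplex (ComplexShape.up ℕ)).obj I.cocomplex).ExactAt
      (n + 1) := by
    rw [HomologicalComplex.exactAt_iff' _ n (n + 1) (n + 2) (by simp)
      (by simp only [CochainComplex.next]; rfl)]
    rw [ShortComplex.ab_exact_iff]
    intro z hz
    have hz' : ∀ g : J, ap (I.cocomplex.d (n + 1) (n + 2)) g
        ((limit.π (I.cocomplex.X (n + 1)) (op g)).hom z) = 0 := by
      intro g
      refine (lim_map _ _ (I.cocomplex.d (n + 1) (n + 2)) z g).symm.trans ?_
      have h1 : ((invLim J).map (I.cocomplex.d (n + 1) (n + 2))).hom z = 0 := hz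
      exact (congrArg _ h1).trans (map_zero _)
    obtain ⟨e, he, hed⟩ := Ex.lift_zero S (I.cocomplex.d n (n + 1)) (hac n 0) hlast hcof
      (fun g => (limit.π (I.cocomplex.X (n + 1)) (op g)).hom z)
      (fun g h hgh => lim_compat _ z g h hgh)
      (fun g => by rw [him n g]; exact hz' g)
    obtain ⟨w, hw⟩ := exists_lim _ e he
    refine ⟨w, ?_⟩
    apply lim_ext (I.cocomplex.X (n + 1))
    intro g
    have h1 := lim_map _ _ (I.cocomplex.d n (n + 1)) w g
    refine Eq.trans h1 ?_
    rw [hw g]
    exact hed g
  exact (HomologicalComplex.exactAt_iff_isZero_homology _ _).1 hex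

end

end Pool.Agent.TH785.DL
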