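import Pool.Agent.TH785.DL.SysA
import Pool.Agent.TH785.DL.Derived

/-!
# Bounding families of functions, chains, and the vanishing theorem
-/

set_option autoImplicit false

namespace Pool.Agent.TH785.DL

open CategoryTheory CategoryTheory.Limits Opposite DirectSum Cardinal Ordinal
open Pool.Agent.W684 Pool.Agent.W684.FM

/-- Conditions for a dominating function: a finite sequence and a finite set of promises. -/
structure HC {X : Type} (F : X → ℕ → ℕ) where
  s : List ℕ
  a : Finset X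

namespace HC

variable {X : Type} {F : X → ℕ → ℕ}

instance : Preorder (HC F) where
  le q p := p.s.length ≤ q.s.length ∧ p.a ⊆ q.a ∧
    (∀ i < p.s.length, q.s.getD i 0 = p.s.getD i 0) ∧
    ∀ i, p.s.length ≤ i → i < q.s.length → ∀ x ∈ p.a, F x i < q.s.getD i 0
  le_refl p := ⟨le_rfl, Finset.Subset.refl _, fun _ _ => rfl, fun i h h' => absurd h' (not_lt.2 h)⟩
  le_trans r q p hrq hqp := by
    obtain ⟨r1, r2, r3, r4⟩ := hrq
    obtain ⟨q1, q2, q3, q4⟩ := hqp
    refine ⟨q1.trans r1, q2.trans r2, ?_, ?_⟩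
    · intro i hi
      rw [r3 i (lt_of_lt_of_le hi q1), q3 i hi]
    · intro i hi hi' x hx
      by_cases h : i < q.s.length
      · rw [r3 i h]
        exact q4 i hi h x hx
      · exact r4 i (not_lt.1 h) hi' x (q2 hx)

theorem extend (p : HC F) (M : ℕ) : ∃ q : HC F, q ≤ p ∧ M ≤ q.s.length := by
  induction M with
  | zero => exact ⟨p, le_rfl, Nat.zero_le _⟩
  | succ M ih =>
    obtain ⟨q, hq, hM⟩ := ih
    let v := q.a.sup (fun x => F x q.s.length) + 1
    refine ⟨⟨q.s ++ [v], q.a⟩, le_trans ?_ hq, ?_⟩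
    · refine ⟨?_, Finset.Subset.refl _, ?_, ?_⟩
      · simp
      · intro i hi
        rw [List.getD_append _ _ _ _ hi]
      · intro i hi hi' x hx
        have h1 : i = q.s.length := by
          simp only [List.length_append, List.length_singleton] at hi'
          omega
        subst h1
        have h2 : (q.s ++ [v]).getD q.s.length 0 = v := by
          rw [List.getD_append_right _ _ _ _ le_rfl]
          simp
        rw [h2]
        exact Nat.lt_succ_of_le (Finset.le_sup (f := fun x => F x q.s.length) hx)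
    · simp only [List.length_append, List.length_singleton]
      omega

end HC

/-- Under Martin's axiom for `κ` dense sets every family of at most `κ` functions is eventually
bounded. -/
theorem bounded {κ : Cardinal.{0}} (hMA : MartinAxiomCard κ) (hκ : ℵ₀ ≤ κ) {X : Type}
    (hX : #X ≤ κ) (F : X → ℕ → ℕ) : ∃ g : ℕ → ℕ, ∀ x, LtStar (F x) g := by
  classical
  haveI : Nonempty (HC F) := ⟨⟨[], ∅⟩⟩
  obtain ⟨G, hG1, hG2⟩ := martin_use hMA (HC F) (T := List ℕ) (fun p => p.s)
    (by
      intro p q hpq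
      refine ⟨⟨p.s, p.a ∪ q.a⟩, ⟨le_rfl, Finset.subset_union_left, fun _ _ => rfl,
        fun i h h' => absurd h' (not_lt.2 h)⟩, ?_⟩
      refine ⟨by rw [hpq], Finset.subset_union_right, fun i _ => by simp only [hpq],
        fun i h h' => absurd h' (not_lt.2 (by simp only [hpq]; exact h))⟩)
    (X := Option X × ℕ)
    (by
      rw [mk_prod, Cardinal.lift_id, Cardinal.lift_id, mk_option, mk_nat]
      exact mul_le_of_le hκ (add_le_of_le hκ hX (one_le_aleph0.trans hκ)) hκ)
    (fun z => {p | (∀ s, z.1 = some s → s ∈ p.a) ∧ z.2 ≤ p.s.length})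
    (by
      rintro ⟨s, M⟩ p
      obtain ⟨q, hq1, hq2⟩ := HC.extend (⟨p.s, p.a ∪ s.toFinset⟩ : HC F) M
      refine ⟨q, ⟨fun s' hs' => hq1.2.1 ?_, hq2⟩, le_trans hq1 ?_⟩
      · simp only at hs'
        rw [hs']
        simp
      · exact ⟨le_rfl, Finset.subset_union_left, fun _ _ => rfl,
          fun i h h' => absurd h' (not_lt.2 h)⟩)
  have h1 : ∀ i : ℕ, ∃ p ∈ G, i < p.s.length := by
    intro i
    obtain ⟨p, hp, h⟩ := hG2 (none, i + 1)
    exact ⟨p, hp, h.2⟩
  choose w hw hwl using h1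
  refine ⟨fun i => (w i).s.getD i 0, fun x => ?_⟩
  obtain ⟨p, hp, hpx, -⟩ := hG2 (some x, 0)
  have hpx' : x ∈ p.a := hpx x rfl
  refine (Set.finite_Iio p.s.length).subset ?_
  intro i hi
  by_contra hcon
  apply hi
  have h2 : p.s.length ≤ i := not_lt.1 hcon
  obtain ⟨r, hr, hr1, hr2⟩ := hG1 p hp (w i) (hw i)
  have h3 : i < r.s.length := lt_of_lt_of_le (hwl i) hr2.1
  show F x i < (w i).s.getD i 0
  rw [← hr2.2.2.1 i (hwl i)]
  exact hr1.2.2.2 i h2 h3 x hpx'

/-- Under Martin's axiom for `κ` dense sets there are chains of every length of cardinality at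
most `κ`. -/
theorem exists_chain {κ : Cardinal.{0}} (hMA : MartinAxiomCard κ) (hκ : ℵ₀ ≤ κ)
    (γ : Ordinal.{0}) (hγ : γ.card ≤ κ) : ∃ f, IsChainOf γ f := by
  classical
  let f : Ordinal.{0} → ℕ → ℕ := WellFounded.fix (r := fun α β : Ordinal.{0} => α < β)
    Ordinal.lt_wf (fun β rec =>
      if h : ∃ g : ℕ → ℕ, ∀ α (hα : α < β), LtStar (rec α hα) g then h.choose else fun _ => 0)
  have hf : ∀ β, f β = if h : ∃ g : ℕ → ℕ, ∀ α, α < β → LtStar (f α) g then h.choose
      else fun _ => 0 := by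
    intro β
    exact WellFounded.fix_eq _ _ _
  refine ⟨f, fun α β hαβ hβγ => ?_⟩
  have hex : ∃ g : ℕ → ℕ, ∀ α, α < β → LtStar (f α) g := by
    have hcard : #(β.ToType) ≤ κ := by
      rw [mk_toType]
      exact (Ordinal.card_le_card hβγ.le).trans hγ
    obtain ⟨g, hg⟩ := bounded hMA hκ hcard (fun x => f (Ordinal.typein (α := β.ToType) (· < ·) x))
    refine ⟨g, fun α hα => ?_⟩
    have h1 : α ∈ Set.range (Ordinal.typein (α := β.ToType) (· < ·)) := by
      rw [Ordinal.mem_range_typein_iff, Ordinal.type_toType]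
      exact hα
    obtain ⟨x, hx⟩ := h1
    rw [← hx]
    exact hg x
  rw [hf β, dif_pos hex]
  exact hex.choose_spec α hαβ

/-- The functions which agree with a member of the family at all but finitely many places. -/
def Near (γ : Ordinal.{0}) (f : Ordinal.{0} → ℕ → ℕ) (g : ℕ → ℕ) : Prop :=
  ∃ α < γ, ∃ k, ∀ i, k ≤ i → g i = f α i

theorem mk_near_le {κ : Cardinal.{0}} (hκ : ℵ₀ ≤ κ) (γ : Ordinal.{0}) (hγ : γ.card ≤ κ)
    (f : Ordinal.{0} → ℕ → ℕ) (D : Set (ℕ → ℕ)) : #{g : D // Near γ f g.1} ≤ κ := by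
  classical
  have h1 : ∀ g : {g : D // Near γ f g.1}, ∃ z : γ.ToType × List ℕ, ∀ i,
      g.1.1 i = if i < z.2.length then z.2.getD i 0
        else f (Ordinal.typein (α := γ.ToType) (· < ·) z.1) i := by
    rintro ⟨g, α, hα, k, hk⟩
    have h1 : α ∈ Set.range (Ordinal.typein (α := γ.ToType) (· < ·)) := by
      rw [Ordinal.mem_range_typein_iff, Ordinal.type_toType]
      exact hα
    obtain ⟨x, hx⟩ := h1
    refine ⟨(x, (List.range k).map g.1), fun i => ?_⟩
    simp only [List.length_map, List.length_range]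
    by_cases hi : i < k
    · rw [if_pos hi]
      simp [List.getD_eq_getElem?_getD, hi]
    · rw [if_neg hi, hx]
      exact hk i (not_lt.1 hi)
  choose z hz using h1
  have hinj : Function.Injective z := by
    intro g g' h
    apply Subtype.ext
    apply Subtype.ext
    funext i
    rw [hz g i, hz g' i, h]
  refine (mk_le_of_injective hinj).trans ?_
  rw [mk_prod, Cardinal.lift_id, Cardinal.lift_id, mk_toType]
  refine mul_le_of_le hκ hγ ?_
  exact (mk_le_aleph0).trans hκ

theorem downStar_inf (γ : Ordinal.{0}) (f : Ordinal.{0} → ℕ → ℕ) :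
    ∀ g h, g ∈ DownStar γ f → h ∈ DownStar γ f → g ⊓ h ∈ DownStar γ f := by
  rintro g h ⟨α, hα, hg⟩ -
  refine ⟨α, hα, hg.subset ?_⟩
  intro i hi hcon
  exact hi ((min_le_left _ _).trans hcon)

/-- The vanishing theorem. -/
theorem vanish {κ : Cardinal.{0}} (hMA : MartinAxiomCard κ) (hκ : ℵ₀ ≤ κ) (γ : Ordinal.{0})
    (hγ : γ.card ≤ κ) (f : Ordinal.{0} → ℕ → ℕ) (m : ℕ) (hm : 2 ≤ m) :
    IsZero ((limN (DownStar γ f) m).obj (sysA (DownStar γ f))) := by
  classical
  obtain ⟨N, rfl⟩ : ∃ N, m = N + 2 := ⟨m - 2, by omega⟩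
  let D := DownStar γ f
  letI := infD D (downStar_inf γ f)
  let ι := {g : D // Near γ f g.1}
  let S : ι → D := Subtype.val
  have hcof : ∀ g : D, ∃ s, g ≤ S s := by
    rintro ⟨g, α, hα, hg⟩
    have h1 : g ⊔ f α ∈ D := by
      refine ⟨α, hα, hg.subset ?_⟩
      intro i hi hcon
      exact hi (max_le hcon le_rfl)
    obtain ⟨k, hk⟩ := hg.bddAbove
    refine ⟨⟨⟨g ⊔ f α, h1⟩, α, hα, k + 1, ?_⟩, ?_⟩
    · intro i hi
      have h2 : g i ≤ f α i := by
        by_contra hcon
        have := hk hcon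
        omega
      exact max_eq_right h2
    · exact Subtype.coe_le_coe.1 (le_sup_left : g ≤ g ⊔ f α)
  exact isZero_limN S hcof (sysA D) (N + 1)
    (ex_sysA D (downStar_inf γ f) hMA hκ S Subtype.val_injective (mk_near_le hκ γ hγ f D) N)

end Pool.Agent.TH785.DL
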