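import Mathlib

/-!
# Inverse systems of abelian groups: enough injectives, additivity of the inverse limit
-/

set_option autoImplicit false

namespace Pool.Agent.TH785.DL

open CategoryTheory CategoryTheory.Limits Opposite

variable (J : Type) [PartialOrder J]

/-- Inverse systems of abelian groups indexed by the partial order `J`. -/
abbrev InvSys : Type 1 := Jᵒᵖ ⥤ AddCommGrpCat.{0}

instance instGroth : IsGrothendieckAbelian.{0} (InvSys J) where
  ab5OfSize := ⟨fun K _ _ => inferInstance⟩

noncomputable instance instEnough : EnoughInjectives (InvSys J) := IsGrothendieckAbelian.enoughInjectives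

/-- The inverse limit functor. -/
noncomputable abbrev invLim : InvSys J ⥤ AddCommGrpCat.{0} := lim

instance : (invLim J).Additive where
  map_add {X Y f g} := by
    apply limit.hom_ext
    intro j
    simp

/-- The `n`-th right derived functor of the inverse limit functor. -/
noncomputable def limN (n : ℕ) : InvSys J ⥤ AddCommGrpCat.{0} := (invLim J).rightDerived n

end Pool.Agent.TH785.DL
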