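import Pool.Agent.TH785.DL.Simp
import Pool.Agent.TH785.DL.Inst

/-!
# Cochains of an inverse system along a cofinal family
-/

set_option autoImplicit false

namespace Pool.Agent.TH785.DL

open CategoryTheory CategoryTheory.Limits Opposite

section

variable {J : Type} [SemilatticeInf J] {ι : Type} (S : ι → J)

/-- `g` lies below all members of the tuple `t`. -/
def Rel {n : ℕ} (t : Fin n → ι) (g : J) : Prop := ∀ i, g ≤ S (t i)

variable {S}

theorem Rel.comp {n m : ℕ} {t : Fin n → ι} {g : J} (h : Rel S t g) (θ : Fin m → Fin n) :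
    Rel S (t ∘ θ) g := fun i => h (θ i)

theorem Rel.mono {n : ℕ} {t : Fin n → ι} {g h : J} (hh : Rel S t h) (hg : g ≤ h) : Rel S t g :=
  fun i => hg.trans (hh i)

theorem Rel.cons {n : ℕ} {t : Fin n → ι} {g : J} {s : ι} (h : Rel S t g) (hs : g ≤ S s) :
    Rel S (Fin.cons s t : Fin (n + 1) → ι) g := by
  intro i
  refine Fin.cases ?_ (fun j => ?_) i
  · simpa using hs
  · simpa using h j

variable (S)

/-- The infimum of a nonempty tuple. -/
def meet {n : ℕ} (t : Fin (n + 1) → ι) : J :=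
  Finset.univ.inf' Finset.univ_nonempty fun i => S (t i)

theorem rel_iff_le_meet {n : ℕ} (t : Fin (n + 1) → ι) (g : J) : Rel S t g ↔ g ≤ meet S t := by
  unfold Rel meet
  simp [Finset.le_inf'_iff]

theorem rel_meet {n : ℕ} (t : Fin (n + 1) → ι) : Rel S t (meet S t) :=
  (rel_iff_le_meet S t _).2 le_rfl

/-- Restriction in an inverse system. -/
def res (X : InvSys J) {g h : J} (hgh : g ≤ h) : X.obj (op h) →+ X.obj (op g) :=
  (X.map (homOfLE hgh).op).hom

theorem res_res (X : InvSys J) {f g h : J} (hfg : f ≤ g) (hgh : g ≤ h) (x : X.obj (op h)) :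
    res X hfg (res X hgh x) = res X (hfg.trans hgh) x := by
  unfold res
  have : X.map (homOfLE (hfg.trans hgh)).op = X.map (homOfLE hgh).op ≫ X.map (homOfLE hfg).op := by
    rw [← X.map_comp]
    rfl
  rw [this]
  rfl

theorem res_refl (X : InvSys J) {g : J} (x : X.obj (op g)) : res X (le_refl g) x = x := by
  unfold res
  have : X.map (homOfLE (le_refl g)).op = 𝟙 _ := by
    rw [← X.map_id]
    rfl
  rw [this]
  rfl

/-- A morphism of inverse systems at the index `g`. -/
def ap {X Y : InvSys J} (f : X ⟶ Y) (g : J) : X.obj (op g) →+ Y.obj (op g) := (f.app (op g)).hom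

theorem ap_res {X Y : InvSys J} (f : X ⟶ Y) {g h : J} (hgh : g ≤ h) (x : X.obj (op h)) :
    ap f g (res X hgh x) = res Y hgh (ap f h x) := by
  unfold ap res
  have := f.naturality (homOfLE hgh).op
  exact congrArg (fun k => k.hom x) this

theorem ap_comp {X Y Z : InvSys J} (f : X ⟶ Y) (f' : Y ⟶ Z) (g : J) (x : X.obj (op g)) :
    ap (f ≫ f') g x = ap f' g (ap f g x) := rfl

/-- Compatible families. -/
def Compat (X : InvSys J) {n : ℕ} (φ : (Fin n → ι) → ∀ g : J, X.obj (op g)) : Prop :=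
  ∀ (t : Fin n → ι) (g h : J) (hgh : g ≤ h), Rel S t h → res X hgh (φ t h) = φ t g

/-- A family of subgroups. -/
abbrev Sub (X : InvSys J) := ∀ g : J, AddSubgroup (X.obj (op g))

/-- Every cocycle of degree `n` with values in `N` is a coboundary. The index `n` counts the
entries of the tuples on which the cochain is defined, minus one. -/
def Ex (X : InvSys J) (N : Sub X) (n : ℕ) : Prop :=
  ∀ φ : (Fin (n + 1) → ι) → ∀ g : J, X.obj (op g), Compat S X φ →
    (∀ t g, Rel S t g → φ t g ∈ N g) →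
    (∀ t g, Rel S t g → dl (fun u => φ u g) t = 0) →
    ∃ ψ : (Fin n → ι) → ∀ g : J, X.obj (op g), Compat S X ψ ∧
      (∀ t g, Rel S t g → ψ t g ∈ N g) ∧ ∀ t g, Rel S t g → dl (fun u => ψ u g) t = φ t g

theorem compat_dl (X : InvSys J) {n : ℕ} {φ : (Fin n → ι) → ∀ g : J, X.obj (op g)}
    (hφ : Compat S X φ) : Compat S X (fun (t : Fin (n + 1) → ι) g => dl (fun u => φ u g) t) := by
  intro t g h hgh hr
  simp only
  rw [map_dl]
  exact dl_congr fun i => hφ _ g h hgh (hr.comp _)

theorem compat_sub (X : InvSys J) {n : ℕ} {φ ψ : (Fin n → ι) → ∀ g : J, X.obj (op g)}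
    (hφ : Compat S X φ) (hψ : Compat S X ψ) : Compat S X (fun t g => φ t g - ψ t g) := by
  intro t g h hgh hr
  simp only [map_sub]
  rw [hφ t g h hgh hr, hψ t g h hgh hr]

theorem compat_map {X Y : InvSys J} (f : X ⟶ Y) {n : ℕ} {φ : (Fin n → ι) → ∀ g : J, X.obj (op g)}
    (hφ : Compat S X φ) : Compat S Y (fun t g => ap f g (φ t g)) := by
  intro t g h hgh hr
  simp only
  rw [← ap_res, hφ t g h hgh hr]

/-- The kernel as a family of subgroups. -/
def kerS {X Y : InvSys J} (f : X ⟶ Y) : Sub X := fun g => (ap f g).ker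

/-- The image as a family of subgroups. -/
def imS {X Y : InvSys J} (f : X ⟶ Y) : Sub Y := fun g => (ap f g).range

/-- All elements. -/
def topS (X : InvSys J) : Sub X := fun _ => ⊤

/-- A retract of an acyclic system is acyclic. -/
theorem Ex.of_retract {X Y : InvSys J} (i : X ⟶ Y) (r : Y ⟶ X) (hir : i ≫ r = 𝟙 X) {n : ℕ}
    (h : Ex S Y (topS Y) n) : Ex S X (topS X) n := by
  intro φ hφ _ hd
  obtain ⟨ψ, hψ, -, hψd⟩ := h (fun t g => ap i g (φ t g)) (compat_map S i hφ)
    (fun _ _ _ => AddSubgroup.mem_top _) (fun t g hr => by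
      rw [← map_dl (ap i g) (fun u => φ u g), hd t g hr, map_zero])
  refine ⟨fun t g => ap r g (ψ t g), compat_map S r hψ, fun _ _ _ => AddSubgroup.mem_top _, ?_⟩
  intro t g hr
  rw [← map_dl (ap r g) (fun u => ψ u g), hψd t g hr, ← ap_comp, hir]
  rfl

/-- Lifting of cochains. -/
theorem exists_lift {X Y : InvSys J} (f : X ⟶ Y) {n : ℕ}
    (φ : (Fin (n + 1) → ι) → ∀ g : J, Y.obj (op g)) (hφ : Compat S Y φ)
    (hm : ∀ t g, Rel S t g → φ t g ∈ imS f g) :
    ∃ b : (Fin (n + 1) → ι) → ∀ g : J, X.obj (op g), Compat S X b ∧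
      ∀ t g, Rel S t g → ap f g (b t g) = φ t g := by
  classical
  have hc : ∀ t : Fin (n + 1) → ι, ∃ x : X.obj (op (meet S t)), ap f _ x = φ t (meet S t) :=
    fun t => hm t _ (rel_meet S t)
  choose x hx using hc
  refine ⟨fun t g => if h : g ≤ meet S t then res X h (x t) else 0, ?_, ?_⟩
  · intro t g h hgh hr
    have h1 : h ≤ meet S t := (rel_iff_le_meet S t h).1 hr
    simp only
    rw [dif_pos h1, dif_pos (hgh.trans h1), res_res]
  · intro t g hr
    have h1 : g ≤ meet S t := (rel_iff_le_meet S t g).1 hr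
    simp only
    rw [dif_pos h1, ap_res, hx, hφ t g _ h1 (rel_meet S t)]

/-- Dimension shifting. -/
theorem Ex.shift {X Y : InvSys J} (f : X ⟶ Y) {n : ℕ} (hX : Ex S X (topS X) n)
    (hK : Ex S X (kerS f) (n + 1)) : Ex S Y (imS f) n := by
  intro φ hφ hm hd
  obtain ⟨b, hb, hbφ⟩ := exists_lift S f φ hφ hm
  obtain ⟨a, ha, hak, had⟩ := hK (fun t g => dl (fun u => b u g) t) (compat_dl S X hb)
    (fun t g hr => by
      show ap f g _ = 0
      rw [map_dl, ← hd t g hr]
      exact dl_congr fun i => hbφ _ g (hr.comp _))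
    (fun t g hr => dl_dl (fun u => b u g) t)
  obtain ⟨e, he, -, hed⟩ := hX (fun t g => b t g - a t g) (compat_sub S X hb ha)
    (fun _ _ _ => AddSubgroup.mem_top _) (fun t g hr => by
      rw [dl_sub, had t g hr, sub_self])
  refine ⟨fun t g => ap f g (e t g), compat_map S f he, fun t g _ => ⟨_, rfl⟩, ?_⟩
  intro t g hr
  rw [← map_dl (ap f g) (fun u => e u g), hed t g hr, map_sub, hbφ t g hr]
  have : ap f g (a t g) = 0 := hak t g hr
  rw [this, sub_zero]

/-- Surjectivity on inverse limits. -/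
theorem Ex.lift_zero {X Y : InvSys J} (f : X ⟶ Y) (hX : Ex S X (topS X) 0)
    (hK : Ex S X (kerS f) 1) (hcof : ∀ g, ∃ s, g ≤ S s)
    (q : ∀ g : J, Y.obj (op g)) (hq : ∀ g h (hgh : g ≤ h), res Y hgh (q h) = q g)
    (hm : ∀ g, q g ∈ imS f g) :
    ∃ e : ∀ g : J, X.obj (op g), (∀ g h (hgh : g ≤ h), res X hgh (e h) = e g) ∧
      ∀ g, ap f g (e g) = q g := by
  obtain ⟨b, hb, hbφ⟩ := exists_lift S f (n := 0) (fun _ g => q g)
    (fun t g h hgh _ => hq g h hgh) (fun t g _ => hm g)
  obtain ⟨a, ha, hak, had⟩ := hK (fun t g => dl (fun u => b u g) t) (compat_dl S X hb)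
    (fun t g hr => by
      show ap f g _ = 0
      rw [map_dl]
      have : dl (fun u : Fin 1 → ι => ap f g (b u g)) t = dl (fun _ : Fin 1 → ι => q g) t :=
        dl_congr fun i => hbφ _ g (hr.comp _)
      rw [this]
      unfold dl
      simp [Fin.sum_univ_two])
    (fun t g hr => dl_dl (fun u => b u g) t)
  obtain ⟨e, he, -, hed⟩ := hX (fun t g => b t g - a t g) (compat_sub S X hb ha)
    (fun _ _ _ => AddSubgroup.mem_top _) (fun t g hr => by
      rw [dl_sub, had t g hr, sub_self])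
  refine ⟨fun g => e Fin.elim0 g, fun g h hgh => he _ g h hgh (fun i => i.elim0), fun g => ?_⟩
  obtain ⟨s, hs⟩ := hcof g
  have hr : Rel S (fun _ : Fin 1 => s) g := fun _ => hs
  have h1 := hed _ g hr
  have h2 : e Fin.elim0 g = b (fun _ => s) g - a (fun _ => s) g := by
    rw [← h1]
    unfold dl
    rw [Fintype.sum_eq_single (0 : Fin 1) (fun x hx => absurd (Subsingleton.elim _ _) hx)]
    simp only [Fin.val_zero, pow_zero, one_smul]
    exact congrArg (fun u => e u g) (Subsingleton.elim _ _)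
  simp only
  rw [h2, map_sub, hbφ _ g hr]
  have : ap f g (a (fun _ => s) g) = 0 := hak _ g hr
  rw [this, sub_zero]

end

end Pool.Agent.TH785.DL
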