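import Pool.Agent.TH785.DL.Coch

/-!
# Coinduced systems and injective systems are acyclic
-/

set_option autoImplicit false

namespace Pool.Agent.TH785.DL

open CategoryTheory CategoryTheory.Limits Opposite

section

variable {J : Type} [SemilatticeInf J] {ι : Type} (S : ι → J)

/-- The coinduced system of `X`: its value at `g` is the product of the groups `X h`, `h ≤ g`. -/
def coind (X : InvSys J) : InvSys J where
  obj g := AddCommGrpCat.of (∀ h : {h : J // h ≤ g.unop}, X.obj (op h.1))
  map {g g'} f := AddCommGrpCat.ofHom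
    { toFun := fun x h => x ⟨h.1, h.2.trans f.unop.le⟩
      map_zero' := rfl
      map_add' := fun _ _ => rfl }
  map_id g := rfl
  map_comp f f' := rfl

/-- The embedding of a system into its coinduced system. -/
def unitC (X : InvSys J) : X ⟶ coind X where
  app g := AddCommGrpCat.ofHom
    { toFun := fun x h => res X h.2 x
      map_zero' := by funext h; exact map_zero _
      map_add' := fun x y => by funext h; exact map_add _ _ _ }
  naturality g g' f := by
    ext x
    funext h
    exact res_res X h.2 f.unop.le x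

instance (X : InvSys J) : Mono (unitC X) := by
  have : ∀ g, Mono ((unitC X).app g) := by
    intro g
    rw [AddCommGrpCat.mono_iff_injective]
    intro x y hxy
    have h1 := congrFun hxy ⟨g.unop, le_rfl⟩
    have h2 : res X (le_refl g.unop) x = res X (le_refl g.unop) y := h1
    rw [res_refl, res_refl] at h2
    exact h2
  exact NatTrans.mono_of_mono_app _

theorem ex_coind (X : InvSys J) (hcof : ∀ g, ∃ s, g ≤ S s) (n : ℕ) :
    Ex S (coind X) (topS (coind X)) n := by
  intro φ hφ _ hd
  choose s hs using hcof
  refine ⟨fun u g (h : {h : J // h ≤ g}) => φ (Fin.cons (s h.1) u) h.1 ⟨h.1, le_rfl⟩, ?_,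
    fun _ _ _ => AddSubgroup.mem_top _, ?_⟩
  · intro t g h hgh hr
    rfl
  · intro t g hr
    funext h
    obtain ⟨h, hh⟩ := h
    let ev : (coind X).obj (op g) →+ X.obj (op h) :=
      { toFun := fun x => x ⟨h, hh⟩, map_zero' := rfl, map_add' := fun _ _ => rfl }
    let ev' : (coind X).obj (op h) →+ X.obj (op h) :=
      { toFun := fun x => x ⟨h, le_rfl⟩, map_zero' := rfl, map_add' := fun _ _ => rfl }
    have h1 : φ t h ⟨h, le_rfl⟩ = φ t g ⟨h, hh⟩ := by
      rw [← hφ t h g hh hr]
      rfl
    have h2 : dl (fun u => ev' (φ u h)) (Fin.cons (s h) t) = 0 := by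
      rw [← map_dl ev' (fun u => φ u h), hd _ h ((hr.mono hh).cons (hs h)), map_zero]
    have h3 := dl_cone (fun u => ev' (φ u h)) (s h) t h2
    have h4 := map_dl ev (fun u => (fun (h : {h : J // h ≤ g}) =>
      φ (Fin.cons (s h.1) u) h.1 ⟨h.1, le_rfl⟩ : (coind X).obj (op g))) t
    refine Eq.trans h4 ?_
    refine Eq.trans ?_ h1
    exact h3

/-- Injective systems are acyclic. -/
theorem ex_injective (X : InvSys J) [Injective X] (hcof : ∀ g, ∃ s, g ≤ S s) (n : ℕ) :
    Ex S X (topS X) n :=
  Ex.of_retract S (unitC X) (Injective.factorThru (𝟙 X) (unitC X))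
    (Injective.comp_factorThru _ _) (ex_coind S X hcof n)

end

end Pool.Agent.TH785.DL
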