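import Pool.Agent.TH785.DL.Inst

/-!
# The inverse systems `A` along chains of functions

`DownStar f n` is the set `F*` of the functions which are eventually bounded by one of the
functions `f α`, `α < ω_n`; `sysA D` is the inverse system of the groups
`A_g = ⨁ i, ℤ^(g i)`, `g ∈ D`, with the projections as transition maps.
-/

set_option autoImplicit false

namespace Pool.Agent.TH785.DL

open CategoryTheory CategoryTheory.Limits Opposite DirectSum

/-- The projection of `ℤ^b` onto the first `a` coordinates. -/
def cut {a b : ℕ} (h : a ≤ b) : (Fin b → ℤ) →+ (Fin a → ℤ) where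
  toFun v := fun j => v (Fin.castLE h j)
  map_zero' := rfl
  map_add' _ _ := rfl

/-- The group `A_g = ⨁ i, ℤ^(g i)`. -/
abbrev AA (g : ℕ → ℕ) : Type := ⨁ i : ℕ, (Fin (g i) → ℤ)

/-- The map `A_h → A_g`, `g ≤ h`, which projects each block onto its first coordinates. -/
def projA {g h : ℕ → ℕ} (hgh : g ≤ h) : AA h →+ AA g := DirectSum.map fun i => cut (hgh i)

theorem projA_apply {g h : ℕ → ℕ} (hgh : g ≤ h) (u : AA h) (i : ℕ) (j : Fin (g i)) :
    projA hgh u i j = u i (Fin.castLE (hgh i) j) := by
  unfold projA
  rw [DirectSum.map_apply]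
  rfl

/-- The restriction of the inverse system `A` to the set `D` of functions. -/
def sysA (D : Set (ℕ → ℕ)) : InvSys D where
  obj g := AddCommGrpCat.of (AA g.unop.1)
  map f := AddCommGrpCat.ofHom (projA (Subtype.coe_le_coe.2 f.unop.le))
  map_id g := by
    apply AddCommGrpCat.hom_ext
    refine AddMonoidHom.ext fun u => ?_
    apply DirectSum.ext
    intro i
    funext j
    exact projA_apply _ _ _ _
  map_comp f f' := by
    apply AddCommGrpCat.hom_ext
    refine AddMonoidHom.ext fun u => ?_
    apply DirectSum.ext
    intro i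
    funext j
    refine (projA_apply _ _ _ _).trans ?_
    symm
    refine (projA_apply _ _ _ _).trans ?_
    exact projA_apply _ _ _ _

/-- `f` is strictly below `g` at all but finitely many places. -/
def LtStar (f g : ℕ → ℕ) : Prop := {i | ¬ f i < g i}.Finite

/-- `f` is at most `g` at all but finitely many places. -/
def LeStar (f g : ℕ → ℕ) : Prop := {i | ¬ f i ≤ g i}.Finite

/-- `f α`, `α < γ`, is a `γ`-chain. -/
def IsChainOf (γ : Ordinal.{0}) (f : Ordinal.{0} → ℕ → ℕ) : Prop :=
  ∀ α β, α < β → β < γ → LtStar (f α) (f β)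

/-- The downward closure of the chain with respect to eventual domination. -/
def DownStar (γ : Ordinal.{0}) (f : Ordinal.{0} → ℕ → ℕ) : Set (ℕ → ℕ) :=
  {g | ∃ α < γ, LeStar g (f α)}

end Pool.Agent.TH785.DL
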