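import Mathlib

/-!
# The coboundary of functions of tuples
-/

set_option autoImplicit false

namespace Pool.Agent.TH785.DL

section

variable {ι M M' : Type*} [AddCommGroup M] [AddCommGroup M']

/-- The alternating sum of the values at the faces of a tuple. -/
def dl {n : ℕ} (φ : (Fin n → ι) → M) (t : Fin (n + 1) → ι) : M :=
  ∑ i : Fin (n + 1), (-1 : ℤ) ^ (i : ℕ) • φ (t ∘ i.succAbove)

theorem dl_congr {n : ℕ} {φ φ' : (Fin n → ι) → M} {t : Fin (n + 1) → ι}
    (h : ∀ i : Fin (n + 1), φ (t ∘ i.succAbove) = φ' (t ∘ i.succAbove)) : dl φ t = dl φ' t := by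
  unfold dl
  exact Finset.sum_congr rfl fun i _ => by rw [h i]

theorem map_dl {n : ℕ} (f : M →+ M') (φ : (Fin n → ι) → M) (t : Fin (n + 1) → ι) :
    f (dl φ t) = dl (fun u => f (φ u)) t := by
  unfold dl
  rw [map_sum]
  exact Finset.sum_congr rfl fun i _ => by rw [map_zsmul]

theorem dl_sub {n : ℕ} (φ φ' : (Fin n → ι) → M) (t : Fin (n + 1) → ι) :
    dl (fun u => φ u - φ' u) t = dl φ t - dl φ' t := by
  unfold dl
  rw [← Finset.sum_sub_distrib]
  exact Finset.sum_congr rfl fun i _ => by rw [smul_sub]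

theorem dl_mem {n : ℕ} (N : AddSubgroup M) {φ : (Fin n → ι) → M} {t : Fin (n + 1) → ι}
    (h : ∀ i : Fin (n + 1), φ (t ∘ i.succAbove) ∈ N) : dl φ t ∈ N :=
  N.sum_mem fun i _ => N.zsmul_mem (h i) _

theorem dl_cons {n : ℕ} (φ : (Fin (n + 1) → ι) → M) (s : ι) (t : Fin (n + 1) → ι) :
    dl φ (Fin.cons s t) = φ t - dl (fun u : Fin n → ι => φ (Fin.cons s u)) t := by
  unfold dl
  rw [Fin.sum_univ_succ]
  have h0 : (Fin.cons s t : Fin (n + 2) → ι) ∘ (0 : Fin (n + 2)).succAbove = t := by
    funext j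
    simp
  rw [h0]
  have h1 : ∀ i : Fin (n + 1), (Fin.cons s t : Fin (n + 2) → ι) ∘ i.succ.succAbove =
      Fin.cons s (t ∘ i.succAbove) := by
    intro i
    funext j
    refine Fin.cases ?_ (fun j => ?_) j
    · simp
    · simp
  simp only [h1, Fin.val_zero, pow_zero, one_smul, Fin.val_succ, pow_succ, mul_neg, mul_one,
    neg_smul, Finset.sum_neg_distrib]
  abel

theorem dl_dl {n : ℕ} (φ : (Fin n → ι) → M) (t : Fin (n + 2) → ι) : dl (dl φ) t = 0 := by
  unfold dl
  simp only [Finset.smul_sum]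
  rw [← Finset.sum_product' Finset.univ Finset.univ
    (fun (i : Fin (n + 2)) (j : Fin (n + 1)) =>
      (-1 : ℤ) ^ (i : ℕ) • (-1 : ℤ) ^ (j : ℕ) • φ ((t ∘ i.succAbove) ∘ j.succAbove))]
  apply Finset.sum_involution (fun (p : Fin (n + 2) × Fin (n + 1)) _ =>
    (p.1.succAbove p.2, p.2.predAbove p.1))
  · rintro ⟨i, j⟩ -
    have hcomp : (t ∘ (i.succAbove j).succAbove) ∘ (j.predAbove i).succAbove =
        (t ∘ i.succAbove) ∘ j.succAbove := by
      funext k
      simp only [Function.comp_apply]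
      rw [Fin.succAbove_succAbove_succAbove_predAbove]
    simp only [hcomp]
    rw [smul_smul, smul_smul, ← add_smul, ← pow_add, ← pow_add]
    have : ((-1 : ℤ) ^ ((i : ℕ) + (j : ℕ)) +
        (-1) ^ (((i.succAbove j : Fin (n + 2)) : ℕ) + ((j.predAbove i : Fin (n + 1)) : ℕ))) = 0 := by
      rcases lt_or_ge j.castSucc i with h | h
      · rw [Fin.succAbove_of_castSucc_lt _ _ h, Fin.predAbove_of_castSucc_lt _ _ h]
        have hi : 0 < (i : ℕ) := lt_of_le_of_lt (Nat.zero_le _) h
        simp only [Fin.val_castSucc, Fin.val_pred]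
        obtain ⟨m, hm⟩ := Nat.exists_eq_succ_of_ne_zero hi.ne'
        rw [hm]
        simp only [Nat.succ_eq_add_one, Nat.add_sub_cancel]
        ring
      · rw [Fin.succAbove_of_le_castSucc _ _ h, Fin.predAbove_of_le_castSucc _ _ h]
        simp only [Fin.val_succ, Fin.coe_castPred]
        ring
    rw [this, zero_smul]
  · rintro ⟨i, j⟩ - - h
    simp only [Prod.mk.injEq] at h
    exact absurd h.1 (Fin.succAbove_ne i j)
  · rintro ⟨i, j⟩ -
    simp
  · rintro ⟨i, j⟩ -
    simp only [Prod.mk.injEq]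
    constructor
    · exact Fin.succAbove_succAbove_predAbove i j
    · rcases lt_or_ge j.castSucc i with h | h
      · rw [Fin.succAbove_of_castSucc_lt _ _ h, Fin.predAbove_of_castSucc_lt _ _ h]
        rw [Fin.predAbove_of_le_castSucc]
        · simp
        · rw [Fin.le_def] 
          simp only [Fin.val_castSucc, Fin.val_pred]
          have : (j : ℕ) < i := h
          omega
      · rw [Fin.succAbove_of_le_castSucc _ _ h, Fin.predAbove_of_le_castSucc _ _ h]
        rw [Fin.predAbove_of_castSucc_lt]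
        · simp
        · rw [Fin.lt_def]
          simp only [Fin.val_castSucc, Fin.coe_castPred, Fin.val_succ]
          have : (i : ℕ) ≤ j := h
          omega

/-- Cone construction: a cocycle is the coboundary of its cone. -/
theorem dl_cone {n : ℕ} (φ : (Fin (n + 1) → ι) → M) (s : ι) (t : Fin (n + 1) → ι)
    (h : dl φ (Fin.cons s t) = 0) : dl (fun u : Fin n → ι => φ (Fin.cons s u)) t = φ t := by
  rw [dl_cons] at h
  exact (sub_eq_zero.mp h).symm

end

end Pool.Agent.TH785.DL
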