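import Pool.Agent.TH785.DL.Simp
import Pool.Agent.W684.FM.Ambient

/-!
# Martin's axiom trivialises cochains which are coherent modulo finite sets
-/

set_option autoImplicit false

namespace Pool.Agent.TH785.DL

open Cardinal Pool.Agent.W684 Pool.Agent.W684.FM

/-- Martin's axiom for conditions which are divided into countably many classes of pairwise
compatible conditions. -/
theorem martin_use {κ : Cardinal.{0}} (hMA : MartinAxiomCard κ) (P : Type) [Preorder P]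
    [Nonempty P] {T : Type} [Countable T] (c : P → T)
    (hc : ∀ p q, c p = c q → ∃ r, r ≤ p ∧ r ≤ q) {X : Type} (hX : #X ≤ κ) (D : X → Set P)
    (hD : ∀ i p, ∃ q ∈ D i, q ≤ p) :
    ∃ G : Set P, (∀ p ∈ G, ∀ q ∈ G, ∃ r ∈ G, r ≤ p ∧ r ≤ q) ∧ ∀ i, ∃ p ∈ G, p ∈ D i := by
  have hccc : IsCCC P := by
    intro A hA
    have hinj : Set.InjOn c A := by
      intro p hp q hq hpq
      by_contra hne
      exact hA p hp q hq hne (hc p q hpq)
    exact Set.MapsTo.countable_of_injOn (Set.mapsTo_univ c A) hinj Set.countable_univ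
  obtain ⟨G, -, -, h3, h4⟩ := hMA P hccc (Set.range D) ((mk_range_le).trans hX) (by
    rintro _ ⟨i, rfl⟩ p
    exact hD i p)
  refine ⟨G, h3, fun i => ?_⟩
  obtain ⟨p, hp⟩ := h4 (D i) ⟨i, rfl⟩
  exact ⟨p, hp.1, hp.2⟩

section

variable {ι : Type} (f : ι → ℕ → ℕ)

/-- The first `k` values of the function with index `s`. -/
def restr (k : ℕ) (s : ι) : List ℕ := (List.range k).map (f s)

theorem exists_restr_injOn (hf : Function.Injective f) (b : Finset ι) :
    ∃ k, Set.InjOn (restr f k) (b : Set ι) := by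
  classical
  have h1 : ∀ z : ι × ι, ∃ i, z.1 ≠ z.2 → f z.1 i ≠ f z.2 i := by
    intro z
    by_cases h : z.1 = z.2
    · exact ⟨0, fun h' => absurd h h'⟩
    · have : f z.1 ≠ f z.2 := fun h' => h (hf h')
      obtain ⟨i, hi⟩ := Function.ne_iff.1 this
      exact ⟨i, fun _ => hi⟩
  choose d hd using h1
  refine ⟨(b ×ˢ b).sup d + 1, ?_⟩
  intro s hs s' hs' hss'
  by_contra hne
  have h2 : d (s, s') ≤ (b ×ˢ b).sup d :=
    Finset.le_sup (f := d) (Finset.mem_product.2 ⟨hs, hs'⟩)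
  apply hd (s, s') hne
  unfold restr at hss'
  have h3 := List.map_inj_left.1 hss' (d (s, s')) (List.mem_range.2 (by omega))
  exact h3

variable {N : ℕ}

/-- All members of the tuple `t` are defined at `x`. -/
def In {n : ℕ} (t : Fin n → ι) (x : ℕ × ℕ) : Prop := ∀ i, x.2 < f (t i) x.1

variable {f}

theorem In.comp {n m : ℕ} {t : Fin n → ι} {x : ℕ × ℕ} (h : In f t x) (θ : Fin m → Fin n) :
    In f (t ∘ θ) x := fun i => h (θ i)

theorem In.cons {n : ℕ} {t : Fin n → ι} {x : ℕ × ℕ} {s : ι} (h : In f t x) (hs : x.2 < f s x.1) :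
    In f (Fin.cons s t : Fin (n + 1) → ι) x := by
  intro i
  refine Fin.cases ?_ (fun j => ?_) i
  · simpa using hs
  · simpa using h j

variable (f)

/-- Codes for finite functions. -/
abbrev Code (N : ℕ) := ((Fin (N + 1) → List ℕ) × ℕ × ℕ) →₀ ℤ

theorem exists_code (hf : Function.Injective f) (b : Finset ι) (M : ℕ)
    (σ : (Fin (N + 1) → ι) → ℕ × ℕ → ℤ) :
    ∃ (k : ℕ) (τ : Code N), ∀ t : Fin (N + 1) → ι, (∀ i, t i ∈ b) → ∀ x : ℕ × ℕ, x.1 < M →
      In f t x → τ (fun i => restr f k (t i), x) = σ t x := by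
  classical
  obtain ⟨k, hk⟩ := exists_restr_injOn f hf b
  let U : ℕ := (b ×ˢ Finset.range M).sup fun z => f z.1 z.2
  let T : Finset ((Fin (N + 1) → ι) × ℕ × ℕ) :=
    (Fintype.piFinset fun _ => b) ×ˢ (Finset.range M ×ˢ Finset.range U)
  let key : (Fin (N + 1) → ι) × ℕ × ℕ → (Fin (N + 1) → List ℕ) × ℕ × ℕ :=
    fun z => (fun i => restr f k (z.1 i), z.2)
  have hkey : ∀ z ∈ T, ∀ z' ∈ T, key z = key z' → z = z' := by
    rintro ⟨t, x⟩ hz ⟨t', x'⟩ hz' h
    simp only [key, Prod.mk.injEq] at h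
    simp only [T, Finset.mem_product, Fintype.mem_piFinset] at hz hz'
    refine Prod.ext ?_ h.2
    funext i
    exact hk (hz.1 i) (hz'.1 i) (congrFun h.1 i)
  let F : (Fin (N + 1) → List ℕ) × ℕ × ℕ → ℤ := fun y =>
    if h : ∃ z ∈ T, key z = y then σ h.choose.1 h.choose.2 else 0
  refine ⟨k, Finsupp.onFinset (T.image key) F ?_, ?_⟩
  · intro y hy
    by_contra hcon
    apply hy
    simp only [F]
    rw [dif_neg]
    rintro ⟨z, hz, hzy⟩
    exact hcon (Finset.mem_image.2 ⟨z, hz, hzy⟩)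
  · intro t ht x hx hin
    have hzT : (t, x) ∈ T := by
      simp only [T, Finset.mem_product, Fintype.mem_piFinset, Finset.mem_range]
      refine ⟨ht, hx, lt_of_lt_of_le (hin 0) ?_⟩
      exact Finset.le_sup (f := fun z : ι × ℕ => f z.1 z.2)
        (b := (t 0, x.1)) (Finset.mem_product.2 ⟨ht 0, Finset.mem_range.2 hx⟩)
    have hex : ∃ z ∈ T, key z = (fun i => restr f k (t i), x) := ⟨(t, x), hzT, rfl⟩
    rw [Finsupp.onFinset_apply]
    simp only [F]
    rw [dif_pos hex]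
    have h1 := hex.choose_spec
    have h2 : hex.choose = (t, x) := hkey _ h1.1 _ hzT (h1.2.trans rfl)
    rw [h2]

/-- The conditions. -/
structure Cond (φ : (Fin (N + 2) → ι) → ℕ × ℕ → ℤ) where
  a : Finset ι
  m : ℕ
  k : ℕ
  τ : Code N
  exact : ∀ t : Fin (N + 3) → ι, (∀ i, t i ∈ a) → ∀ x : ℕ × ℕ, m ≤ x.1 → In f t x →
    dl (fun u => φ u x) t = 0

variable {f}

namespace Cond

variable {φ : (Fin (N + 2) → ι) → ℕ × ℕ → ℤ}

/-- The function coded by a condition. -/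
def val (p : Cond f φ) (t : Fin (N + 1) → ι) (x : ℕ × ℕ) : ℤ :=
  p.τ (fun i => restr f p.k (t i), x)

/-- The order of conditions. -/
def Le (q p : Cond f φ) : Prop :=
  p.a ⊆ q.a ∧ p.m ≤ q.m ∧
    (∀ t : Fin (N + 1) → ι, (∀ i, t i ∈ p.a) → ∀ x : ℕ × ℕ, x.1 < p.m → In f t x →
      q.val t x = p.val t x) ∧
    ∀ t : Fin (N + 2) → ι, (∀ i, t i ∈ p.a) → ∀ x : ℕ × ℕ, p.m ≤ x.1 → x.1 < q.m → In f t x →
      dl (fun u => q.val u x) t = φ t x

instance : Preorder (Cond f φ) where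
  le := Le
  le_refl p := ⟨Finset.Subset.refl _, le_rfl, fun _ _ _ _ _ => rfl,
    fun _ _ _ h1 h2 _ => absurd h2 (not_lt.2 h1)⟩
  le_trans r q p hrq hqp := by
    obtain ⟨r1, r2, r3, r4⟩ := hrq
    obtain ⟨q1, q2, q3, q4⟩ := hqp
    refine ⟨q1.trans r1, q2.trans r2, ?_, ?_⟩
    · intro t ht x hx hin
      rw [r3 t (fun i => q1 (ht i)) x (lt_of_lt_of_le hx q2) hin, q3 t ht x hx hin]
    · intro t ht x hx hx' hin
      by_cases h : x.1 < q.m
      · rw [← q4 t ht x hx h hin]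
        exact dl_congr fun i => r3 _ (fun j => q1 (ht _)) x h (hin.comp _)
      · exact r4 t (fun i => q1 (ht i)) x (not_lt.1 h) hx' hin

theorem le_iff (q p : Cond f φ) : q ≤ p ↔ Le q p := Iff.rfl

end Cond

/-- Coherence. -/
def Coh (f : ι → ℕ → ℕ) (φ : (Fin (N + 2) → ι) → ℕ × ℕ → ℤ) : Prop :=
  ∀ t : Fin (N + 3) → ι, {x | In f t x ∧ dl (fun u => φ u x) t ≠ 0}.Finite

theorem Coh.exists_bound {φ : (Fin (N + 2) → ι) → ℕ × ℕ → ℤ} (hφ : Coh f φ) (b : Finset ι)
    (M : ℕ) : ∃ m, M ≤ m ∧ ∀ t : Fin (N + 3) → ι, (∀ i, t i ∈ b) → ∀ x : ℕ × ℕ, m ≤ x.1 →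
      In f t x → dl (fun u => φ u x) t = 0 := by
  classical
  let Z : Finset (ℕ × ℕ) := (Fintype.piFinset fun _ : Fin (N + 3) => b).biUnion
    fun t => (hφ t).toFinset
  refine ⟨max M (Z.sup Prod.fst + 1), le_max_left _ _, ?_⟩
  intro t ht x hx hin
  by_contra hne
  have h1 : x ∈ Z := by
    simp only [Z, Finset.mem_biUnion, Fintype.mem_piFinset]
    exact ⟨t, ht, (Set.Finite.mem_toFinset _).2 ⟨hin, hne⟩⟩
  have h2 : x.1 ≤ Z.sup Prod.fst := Finset.le_sup (f := Prod.fst) h1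
  have h3 := (le_max_right M (Z.sup Prod.fst + 1)).trans hx
  omega

/-- Amalgamation of conditions. -/
theorem Cond.amalgam (hf : Function.Injective f) {φ : (Fin (N + 2) → ι) → ℕ × ℕ → ℤ}
    (hφ : Coh f φ) (p q : Cond f φ) (hm : p.m = q.m) (hk : p.k = q.k) (hτ : p.τ = q.τ)
    (b : Finset ι) (M : ℕ) :
    ∃ r : Cond f φ, r ≤ p ∧ r ≤ q ∧ b ⊆ r.a ∧ M ≤ r.m := by
  classical
  let c : Finset ι := p.a ∪ q.a ∪ b
  obtain ⟨m', hm', hex⟩ := hφ.exists_bound c (max p.m M)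
  -- base points
  let A : (ℕ × ℕ) → Prop := fun x => ∃ s ∈ p.a, s ∈ q.a ∧ x.2 < f s x.1
  let Ap : (ℕ × ℕ) → Prop := fun x => ∃ s ∈ p.a, x.2 < f s x.1
  let Aq : (ℕ × ℕ) → Prop := fun x => ∃ s ∈ q.a, x.2 < f s x.1
  let σ : (Fin (N + 1) → ι) → ℕ × ℕ → ℤ := fun t x =>
    if x.1 < p.m then p.val t x else
    if h : A x then φ (Fin.cons h.choose t) x else
    if ∀ i, t i ∈ p.a then (if h : Ap x then φ (Fin.cons h.choose t) x else 0)
    else (if h : Aq x then φ (Fin.cons h.choose t) x else 0)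
  obtain ⟨k, τ, hkτ⟩ := exists_code f hf c m' σ
  have hpm : p.m ≤ m' := (le_max_left _ _).trans hm'
  have hpc : p.a ⊆ c := fun s hs => by simp [c, hs]
  have hqc : q.a ⊆ c := fun s hs => by simp [c, hs]
  have hbc : b ⊆ c := fun s hs => by simp [c, hs]
  have hσp : ∀ t : Fin (N + 2) → ι, (∀ i, t i ∈ p.a) → ∀ x : ℕ × ℕ, p.m ≤ x.1 → In f t x →
      dl (fun u => σ u x) t = φ t x := by
    intro t ht x hx hin
    by_cases hA : A x
    · have h1 : dl (fun u => σ u x) t = dl (fun u => φ (Fin.cons hA.choose u) x) t := by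
        apply dl_congr
        intro i
        simp only [σ]
        rw [if_neg (not_lt.2 hx), dif_pos hA]
      rw [h1]
      apply dl_cone (fun u => φ u x)
      apply p.exact _ _ x hx (hin.cons hA.choose_spec.2.2)
      intro i
      refine Fin.cases ?_ (fun j => ?_) i
      · simpa using hA.choose_spec.1
      · simpa using ht j
    · have hAp : Ap x := ⟨t 0, ht 0, hin 0⟩
      have h1 : dl (fun u => σ u x) t = dl (fun u => φ (Fin.cons hAp.choose u) x) t := by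
        apply dl_congr
        intro i
        simp only [σ]
        have h2 : ∀ j, (t ∘ i.succAbove) j ∈ p.a := fun j => ht _
        rw [if_neg (not_lt.2 hx), dif_neg hA, if_pos h2, dif_pos hAp]
      rw [h1]
      apply dl_cone (fun u => φ u x)
      apply p.exact _ _ x hx (hin.cons hAp.choose_spec.2)
      intro i
      refine Fin.cases ?_ (fun j => ?_) i
      · simpa using hAp.choose_spec.1
      · simpa using ht j
  have hσq : ∀ t : Fin (N + 2) → ι, (∀ i, t i ∈ q.a) → ∀ x : ℕ × ℕ, p.m ≤ x.1 → In f t x →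
      dl (fun u => σ u x) t = φ t x := by
    intro t ht x hx hin
    by_cases hA : A x
    · have h1 : dl (fun u => σ u x) t = dl (fun u => φ (Fin.cons hA.choose u) x) t := by
        apply dl_congr
        intro i
        simp only [σ]
        rw [if_neg (not_lt.2 hx), dif_pos hA]
      rw [h1]
      apply dl_cone (fun u => φ u x)
      apply q.exact _ _ x (hm ▸ hx) (hin.cons hA.choose_spec.2.2)
      intro i
      refine Fin.cases ?_ (fun j => ?_) i
      · simpa using hA.choose_spec.2.1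
      · simpa using ht j
    · have hAq : Aq x := ⟨t 0, ht 0, hin 0⟩
      have h1 : dl (fun u => σ u x) t = dl (fun u => φ (Fin.cons hAq.choose u) x) t := by
        apply dl_congr
        intro i
        simp only [σ]
        have h2 : ¬ ∀ j, (t ∘ i.succAbove) j ∈ p.a := by
          intro h
          exact hA ⟨(t ∘ i.succAbove) 0, h 0, ht _, hin _⟩
        rw [if_neg (not_lt.2 hx), dif_neg hA, if_neg h2, dif_pos hAq]
      rw [h1]
      apply dl_cone (fun u => φ u x)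
      apply q.exact _ _ x (hm ▸ hx) (hin.cons hAq.choose_spec.2)
      intro i
      refine Fin.cases ?_ (fun j => ?_) i
      · simpa using hAq.choose_spec.1
      · simpa using ht j
  let r : Cond f φ := ⟨c, m', k, τ, hex⟩
  have hval : ∀ t : Fin (N + 1) → ι, (∀ i, t i ∈ c) → ∀ x : ℕ × ℕ, x.1 < m' → In f t x →
      r.val t x = σ t x := hkτ
  refine ⟨r, ⟨hpc, hpm, ?_, ?_⟩, ⟨hqc, hm ▸ hpm, ?_, ?_⟩, hbc, (le_max_right _ _).trans hm'⟩
  · intro t ht x hx hin
    rw [hval t (fun i => hpc (ht i)) x (lt_of_lt_of_le hx hpm) hin]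
    simp only [σ]
    rw [if_pos hx]
  · intro t ht x hx hx' hin
    rw [← hσp t ht x hx hin]
    exact dl_congr fun i => hval _ (fun j => hpc (ht _)) x hx' (hin.comp _)
  · intro t ht x hx hin
    have hx2 : x.1 < p.m := by rw [hm]; exact hx
    rw [hval t (fun i => hqc (ht i)) x (lt_of_lt_of_le hx2 hpm) hin]
    simp only [σ]
    rw [if_pos hx2]
    unfold Cond.val
    rw [hτ, hk]
  · intro t ht x hx hx' hin
    have hx2 : p.m ≤ x.1 := by rw [hm]; exact hx
    rw [← hσq t ht x hx2 hin]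
    exact dl_congr fun i => hval _ (fun j => hqc (ht _)) x hx' (hin.comp _)

/-- Under Martin's axiom a cochain of degree at least one (on tuples of at least two functions)
which is coherent modulo finite sets is a coboundary modulo finite sets. -/
theorem trivialise {κ : Cardinal.{0}} (hMA : MartinAxiomCard κ) (hκ : ℵ₀ ≤ κ)
    (hf : Function.Injective f) (hι : #ι ≤ κ) {φ : (Fin (N + 2) → ι) → ℕ × ℕ → ℤ}
    (hφ : Coh f φ) :
    ∃ ψ : (Fin (N + 1) → ι) → ℕ × ℕ → ℤ, ∀ t : Fin (N + 2) → ι,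
      {x | In f t x ∧ dl (fun u => ψ u x) t ≠ φ t x}.Finite := by
  classical
  haveI : Nonempty (Cond f φ) := by
    obtain ⟨m, _, hm⟩ := hφ.exists_bound ∅ 0
    exact ⟨⟨∅, m, 0, 0, hm⟩⟩
  obtain ⟨G, hG1, hG2⟩ := martin_use hMA (Cond f φ) (T := ℕ × ℕ × Code N)
    (fun p => (p.m, p.k, p.τ))
    (by
      intro p q hpq
      simp only [Prod.mk.injEq] at hpq
      obtain ⟨r, hr1, hr2, -⟩ := Cond.amalgam hf hφ p q hpq.1 hpq.2.1 hpq.2.2 ∅ 0
      exact ⟨r, hr1, hr2⟩)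
    (X := Option ι × ℕ)
    (by
      rw [mk_prod, lift_id, lift_id, mk_option, mk_nat]
      exact mul_le_of_le hκ (add_le_of_le hκ hι (one_le_aleph0.trans hκ)) hκ)
    (fun z => {p | (∀ s, z.1 = some s → s ∈ p.a) ∧ z.2 ≤ p.m})
    (by
      rintro ⟨s, M⟩ p
      obtain ⟨r, hr1, -, hr3, hr4⟩ := Cond.amalgam hf hφ p p rfl rfl rfl s.toFinset M
      refine ⟨r, ⟨fun s' hs' => hr3 ?_, hr4⟩, hr1⟩
      simp only at hs'
      rw [hs']
      simp)
  -- finitely many indices and a bound are captured by one condition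
  have hG0 : ∀ M, ∃ p ∈ G, M ≤ p.m := fun M => by
    obtain ⟨p, hp, h⟩ := hG2 (none, M)
    exact ⟨p, hp, h.2⟩
  have hcap : ∀ (b : Finset ι) (p0 : Cond f φ), p0 ∈ G → ∀ M, ∃ p ∈ G, p ≤ p0 ∧ b ⊆ p.a ∧ M ≤ p.m := by
    intro b
    induction b using Finset.induction_on with
    | empty =>
      intro p0 hp0 M
      obtain ⟨q, hq, hqM⟩ := hG0 M
      obtain ⟨r, hr, hr1, hr2⟩ := hG1 p0 hp0 q hq
      exact ⟨r, hr, hr1, Finset.empty_subset _, hqM.trans hr2.2.1⟩
    | insert s b _ ih =>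
      intro p0 hp0 M
      obtain ⟨p, hp, hp1, hp2, hp3⟩ := ih p0 hp0 M
      obtain ⟨q, hq, hqs⟩ := hG2 (some s, 0)
      obtain ⟨r, hr, hr1, hr2⟩ := hG1 p hp q hq
      refine ⟨r, hr, le_trans hr1 hp1, ?_, hp3.trans hr1.2.1⟩
      intro s' hs'
      rcases Finset.mem_insert.1 hs' with rfl | h
      · exact hr2.1 (hqs.1 _ rfl)
      · exact hr1.1 (hp2 h)
  obtain ⟨pb, hpb, -⟩ := hG0 0
  have hcap' : ∀ {n : ℕ} (t : Fin n → ι) (M : ℕ), ∃ p ∈ G, (∀ i, t i ∈ p.a) ∧ M ≤ p.m := by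
    intro n t M
    obtain ⟨p, hp, -, hp2, hp3⟩ := hcap (Finset.univ.image t) pb hpb M
    exact ⟨p, hp, fun i => hp2 (Finset.mem_image_of_mem _ (Finset.mem_univ i)), hp3⟩
  have hc : ∀ (t : Fin (N + 1) → ι) (x : ℕ × ℕ), ∃ p ∈ G, (∀ i, t i ∈ p.a) ∧ x.1 < p.m := by
    intro t x
    obtain ⟨p, hp, h1, h2⟩ := hcap' t (x.1 + 1)
    exact ⟨p, hp, h1, by omega⟩
  choose w hw hwa hwm using hc
  have huniq : ∀ (t : Fin (N + 1) → ι) (x : ℕ × ℕ), In f t x → ∀ p ∈ G, (∀ i, t i ∈ p.a) →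
      x.1 < p.m → (w t x).val t x = p.val t x := by
    intro t x hin p hp hpa hpm
    obtain ⟨r, hr, hr1, hr2⟩ := hG1 (w t x) (hw t x) p hp
    rw [← hr1.2.2.1 t (hwa t x) x (hwm t x) hin, hr2.2.2.1 t hpa x hpm hin]
  refine ⟨fun t x => (w t x).val t x, fun t => ?_⟩
  obtain ⟨p, hp, hpa, -⟩ := hcap' t 0
  have hfin : {x : ℕ × ℕ | x.1 < p.m ∧ x.2 < f (t 0) x.1}.Finite := by
    let U : ℕ := (Finset.range p.m).sup (f (t 0))
    refine ((Finset.range p.m ×ˢ Finset.range U).finite_toSet).subset ?_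
    rintro x ⟨hx1, hx2⟩
    simp only [Finset.coe_product, Finset.coe_range, Set.mem_prod, Set.mem_Iio]
    exact ⟨hx1, lt_of_lt_of_le hx2 (Finset.le_sup (f := f (t 0)) (Finset.mem_range.2 hx1))⟩
  refine hfin.subset ?_
  rintro x ⟨hin, hne⟩
  refine ⟨?_, hin 0⟩
  by_contra hxm
  apply hne
  obtain ⟨q, hq, hqp, -, hqm⟩ := hcap ∅ p hp (x.1 + 1)
  rw [← hqp.2.2.2 t hpa x (not_lt.1 hxm) (by omega) hin]
  apply dl_congr
  intro i
  exact huniq _ x (hin.comp _) q hq (fun j => hqp.1 (hpa _)) (by omega)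

end

end Pool.Agent.TH785.DL
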