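import Pool.Agent.TH785.DL.Defs
import Pool.Agent.TH785.DL.Coch
import Pool.Agent.TH785.DL.Triv

/-!
# Cocycles of the system `A` in degrees at least two are coboundaries under Martin's axiom
-/

set_option autoImplicit false

namespace Pool.Agent.TH785.DL

open CategoryTheory CategoryTheory.Limits Opposite DirectSum Cardinal
open Pool.Agent.W684 Pool.Agent.W684.FM

/-- The coordinate of an element of `A_g`. -/
def ev (g : ℕ → ℕ) (x : ℕ × ℕ) : AA g →+ ℤ where
  toFun u := if h : x.2 < g x.1 then u x.1 ⟨x.2, h⟩ else 0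
  map_zero' := by
    split_ifs
    · rfl
    · rfl
  map_add' u v := by
    split_ifs
    · rfl
    · rfl

theorem ev_of_lt {g : ℕ → ℕ} {x : ℕ × ℕ} (h : x.2 < g x.1) (u : AA g) :
    ev g x u = u x.1 ⟨x.2, h⟩ := dif_pos h

theorem ev_ext {g : ℕ → ℕ} {u v : AA g} (h : ∀ x : ℕ × ℕ, x.2 < g x.1 → ev g x u = ev g x v) :
    u = v := by
  apply DirectSum.ext
  intro i
  funext j
  have h1 := h (i, j) j.2
  rw [ev_of_lt (x := (i, (j : ℕ))) j.2, ev_of_lt (x := (i, (j : ℕ))) j.2] at h1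
  exact h1

theorem ev_projA {g h : ℕ → ℕ} (hgh : g ≤ h) {x : ℕ × ℕ} (hx : x.2 < g x.1) (u : AA h) :
    ev g x (projA hgh u) = ev h x u := by
  rw [ev_of_lt hx, ev_of_lt (lt_of_lt_of_le hx (hgh _)), projA_apply]
  rfl

theorem ev_finite (g : ℕ → ℕ) (u : AA g) : {x | ev g x u ≠ 0}.Finite := by
  classical
  have h1 : ({i | u i ≠ 0} : Set ℕ).Finite := by
    refine ((DFinsupp.support u).finite_toSet).subset ?_
    intro i hi
    exact (DFinsupp.mem_support_iff).2 hi
  let U : Finset ℕ := h1.toFinset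
  refine ((U ×ˢ Finset.range (U.sup g)).finite_toSet).subset ?_
  intro x hx
  have h2 : x.2 < g x.1 := by
    by_contra hcon
    exact hx (dif_neg hcon)
  have h3 : x.1 ∈ U := by
    simp only [U, Set.Finite.mem_toFinset, Set.mem_setOf_eq]
    intro h0
    apply hx
    rw [ev_of_lt h2, h0]
    rfl
  simp only [Finset.coe_product, Set.mem_prod, Finset.mem_coe, Finset.mem_range]
  exact ⟨h3, lt_of_lt_of_le h2 (Finset.le_sup h3)⟩

theorem exists_mk (g : ℕ → ℕ) (w : ℕ × ℕ → ℤ) (hw : {x | x.2 < g x.1 ∧ w x ≠ 0}.Finite) :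
    ∃ u : AA g, ∀ x : ℕ × ℕ, x.2 < g x.1 → ev g x u = w x := by
  classical
  refine ⟨DirectSum.mk (fun i => (Fin (g i) → ℤ)) (hw.toFinset.image Prod.fst)
    (fun i j => w (i, j)), ?_⟩
  intro x hx
  rw [ev_of_lt hx]
  by_cases h : x.1 ∈ hw.toFinset.image Prod.fst
  · rw [DirectSum.mk_apply_of_mem h]
  · rw [DirectSum.mk_apply_of_notMem h]
    by_contra hcon
    apply h
    refine Finset.mem_image.2 ⟨x, ?_, rfl⟩
    rw [Set.Finite.mem_toFinset]
    exact ⟨hx, fun h0 => hcon (h0 ▸ rfl)⟩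

section

variable (D : Set (ℕ → ℕ)) (hD : ∀ g h, g ∈ D → h ∈ D → g ⊓ h ∈ D)

/-- A set of functions which is closed under minima is a meet semilattice. -/
@[reducible] def infD : SemilatticeInf D := Subtype.semilatticeInf (fun {g h} hg hh => hD g h hg hh)

include hD in
theorem lt_meet {ι : Type} (S : ι → D) {n : ℕ} (t : Fin (n + 1) → ι) (x : ℕ × ℕ)
    (h : ∀ i, x.2 < (S (t i)).1 x.1) : x.2 < (@meet D (infD D hD) ι S n t).1 x.1 := by
  letI := infD D hD
  unfold meet
  exact Finset.inf'_induction Finset.univ_nonempty (fun i => S (t i))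
    (p := fun g : D => x.2 < g.1 x.1) (fun g hg h hh => lt_min hg hh) (fun i _ => h i)

theorem ex_sysA {κ : Cardinal.{0}} (hMA : MartinAxiomCard κ) (hκ : ℵ₀ ≤ κ) {ι : Type} (S : ι → D)
    (hS : Function.Injective S) (hι : #ι ≤ κ) (N : ℕ) :
    @Ex D (infD D hD) ι S (sysA D) (@topS D (infD D hD) (sysA D)) (N + 2) := by
  classical
  letI := infD D hD
  intro ξ hξ _ hd
  let f : ι → ℕ → ℕ := fun s => (S s).1
  have hf : Function.Injective f := fun s s' h => hS (Subtype.ext h)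
  let val : (t : Fin (N + 3) → ι) → ∀ g : D, AA g.1 := fun t g => ξ t g
  let ξ' : (Fin (N + 3) → ι) → ℕ × ℕ → ℤ := fun t x => ev (meet S t).1 x (val t (meet S t))
  have hA : ∀ (t : Fin (N + 3) → ι) (g : D), Rel S t g → ∀ x : ℕ × ℕ, x.2 < g.1 x.1 →
      ev g.1 x (val t g) = ξ' t x := by
    intro t g hr x hx
    have h1 : g ≤ meet S t := (rel_iff_le_meet S t g).1 hr
    have h2 : val t g = projA (Subtype.coe_le_coe.2 h1) (val t (meet S t)) :=
      (hξ t g (meet S t) h1 (rel_meet S t)).symm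
    rw [h2, ev_projA _ hx]
  have hcoc : ∀ (t : Fin (N + 4) → ι) (x : ℕ × ℕ), In f t x → dl (fun u => ξ' u x) t = 0 := by
    intro t x hin
    have h1 : x.2 < (meet S t : D).1 x.1 := lt_meet D hD S t x hin
    have h2 : dl (fun u => val u (meet S t)) t = 0 := hd t (meet S t) (rel_meet S t)
    have h3 := map_dl (ev (meet S t : D).1 x) (fun u => val u (meet S t)) t
    rw [h2, map_zero] at h3
    rw [h3]
    exact dl_congr fun i => (hA _ _ ((rel_meet S t).comp _) x h1).symm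
  let φ : (Fin (N + 2) → ι) → ℕ × ℕ → ℤ := fun t x =>
    if h : ∃ s, x.2 < f s x.1 then ξ' (Fin.cons h.choose t) x else 0
  have hφ : ∀ (t : Fin (N + 3) → ι) (x : ℕ × ℕ), In f t x → dl (fun u => φ u x) t = ξ' t x := by
    intro t x hin
    have hex : ∃ s, x.2 < f s x.1 := ⟨t 0, hin 0⟩
    have h1 : dl (fun u => φ u x) t = dl (fun u => ξ' (Fin.cons hex.choose u) x) t :=
      dl_congr fun i => dif_pos hex
    rw [h1]
    exact dl_cone (fun u => ξ' u x) _ t (hcoc _ x (hin.cons hex.choose_spec))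
  have hcoh : Coh f φ := by
    intro t
    refine (ev_finite _ (val t (meet S t))).subset ?_
    rintro x ⟨hin, hne⟩
    rw [hφ t x hin] at hne
    exact hne
  obtain ⟨ψ, hψ⟩ := trivialise hMA hκ hf hι hcoh
  let χ : (Fin (N + 2) → ι) → ℕ × ℕ → ℤ := fun t x => φ t x - dl (fun u => ψ u x) t
  have hχ : ∀ t, {x | In f t x ∧ χ t x ≠ 0}.Finite := by
    intro t
    refine (hψ t).subset ?_
    rintro x ⟨hin, hne⟩
    exact ⟨hin, fun h => hne (sub_eq_zero.2 h.symm)⟩
  have hχd : ∀ (t : Fin (N + 3) → ι) (x : ℕ × ℕ), In f t x → dl (fun u => χ u x) t = ξ' t x := by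
    intro t x hin
    have h1 : dl (fun u => χ u x) t =
        dl (fun u => φ u x) t - dl (fun v => dl (fun u => ψ u x) v) t :=
      dl_sub (fun u => φ u x) (fun v => dl (fun u => ψ u x) v) t
    rw [h1, dl_dl, sub_zero, hφ t x hin]
  have hex : ∀ (t : Fin (N + 2) → ι) (g : D), ∃ u : AA g.1, Rel S t g →
      ∀ x : ℕ × ℕ, x.2 < g.1 x.1 → ev g.1 x u = χ t x := by
    intro t g
    by_cases hr : Rel S t g
    · obtain ⟨u, hu⟩ := exists_mk g.1 (χ t) ((hχ t).subset (by
        rintro x ⟨hx, hne⟩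
        exact ⟨fun i => lt_of_lt_of_le hx (hr i x.1), hne⟩))
      exact ⟨u, fun _ => hu⟩
    · exact ⟨0, fun h => absurd h hr⟩
  choose Ψ hΨ using hex
  refine ⟨fun t g => Ψ t g, ?_, fun _ _ _ => AddSubgroup.mem_top _, ?_⟩
  · intro t g h hgh hr
    have h1 : projA (Subtype.coe_le_coe.2 hgh) (Ψ t h) = Ψ t g := by
      apply ev_ext
      intro x hx
      rw [ev_projA _ hx, hΨ t h hr x (lt_of_lt_of_le hx (hgh x.1)), hΨ t g (hr.mono hgh) x hx]
    exact h1
  · intro t g hr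
    have h1 : dl (fun u => Ψ u g) t = val t g := by
      apply ev_ext
      intro x hx
      rw [map_dl, hA t g hr x hx, ← hχd t x (fun i => lt_of_lt_of_le hx (hr i x.1))]
      exact dl_congr fun i => hΨ _ g (hr.comp _) x hx
    exact h1

end

end Pool.Agent.TH785.DL
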